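import Pool.Agent.H38.AG.Targets

/-!
# Few relations, large modulus: lemmas
-/

set_option autoImplicit false
namespace Pool.Agent.H14.AG
open Pool.Agent.H38.RB Pool.Agent.H38.PS Pool.Agent.H82.RD Pool.Agent.H38.AB Pool.Agent.H38.AG

/-- `n ^ n ≤ (n !) ^ 2` -/
theorem self_pow_le (n : ℕ) : n ^ n ≤ n.factorial * n.factorial := by
  have h1 : n.factorial = ∏ k ∈ Finset.range n, (k + 1) :=
    (Finset.prod_range_add_one_eq_factorial n).symm
  have h2 : n.factorial = ∏ k ∈ Finset.range n, (n - 1 - k + 1) := by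
    rw [h1, ← Finset.prod_range_reflect]
  calc n ^ n = ∏ _k ∈ Finset.range n, n := by rw [Finset.prod_const, Finset.card_range]
    _ ≤ ∏ k ∈ Finset.range n, ((k + 1) * (n - 1 - k + 1)) := by
        refine Finset.prod_le_prod' fun k hk => ?_
        have hk' := Finset.mem_range.1 hk
        obtain ⟨j, hj⟩ : ∃ j, n = k + 1 + j := ⟨n - (k + 1), by omega⟩
        have h3 : n - 1 - k + 1 = j + 1 := by omega
        rw [h3, hj]
        nlinarith
    _ = n.factorial * n.factorial := by
        rw [Finset.prod_mul_distrib, ← h1, ← h2]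

/-- the sum of the logarithms of the elements of a set, truncated -/
theorem sum_log (E : ℝ) (Q : Finset ℕ) : (∀ u ∈ Q, 2 ≤ u) → (Q.card : ℝ) ≤ E →
    Real.log ((Q.card + 1).factorial : ℝ) ≤ ∑ u ∈ Q, Real.log (min (u : ℝ) (E + 1)) := by
  induction Q using Finset.induction_on_max with
  | empty =>
    intro _ _
    simp
  | insert a s ha ih =>
    intro h2 hc
    have hna : a ∉ s := fun h => lt_irrefl _ (ha a h)
    rw [Finset.card_insert_of_notMem hna] at hc ⊢
    push_cast at hc
    rw [Finset.sum_insert hna, Nat.factorial_succ]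
    have h3 := ih (fun u hu => h2 u (Finset.mem_insert_of_mem hu)) (by linarith)
    have h4 : s ⊆ Finset.Ico 2 a := fun x hx =>
      Finset.mem_Ico.2 ⟨h2 x (Finset.mem_insert_of_mem hx), ha x hx⟩
    have h5 := Finset.card_le_card h4
    rw [Nat.card_Ico] at h5
    have h6 : 2 ≤ a := h2 a (Finset.mem_insert_self _ _)
    have h7 : s.card + 1 + 1 ≤ a := by omega
    have h8 : ((s.card + 1 + 1 : ℕ) : ℝ) ≤ min (a : ℝ) (E + 1) := by
      refine le_min (by exact_mod_cast h7) ?_
      push_cast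
      linarith
    have h9 : (0 : ℝ) < ((s.card + 1).factorial : ℝ) := by
      exact_mod_cast Nat.factorial_pos _
    have h10 : (0 : ℝ) < ((s.card + 1 + 1 : ℕ) : ℝ) := by positivity
    rw [Nat.cast_mul, Real.log_mul h10.ne' h9.ne']
    exact add_le_add (Real.log_le_log h10 h8) h3

/-- the numerical condition of the machine -/
theorem nc_of {q A B D H u : ℕ} (hq : 2 ≤ q) (hu : 1 ≤ u) (hD : 1 ≤ D) (hH : 1 ≤ H)
    (h1 : 100 * (u : ℝ) ≤ A)
    (h2 : 100 * (u : ℝ) * (u + 1) * (Real.log 2 + 2 * Real.log D) ≤ B)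
    (h3 : 100 * (u : ℝ) * (u + 1) * Real.log H ≤ A) (h4 : 200 * (u : ℝ) * u ≤ B) :
    NC q A B D H u := by
  have hu' : (1 : ℝ) ≤ u := by exact_mod_cast hu
  have hu0 : (0 : ℝ) < u := by linarith
  have hA : (1 : ℝ) ≤ A := by linarith
  have hB : (1 : ℝ) ≤ B := by nlinarith
  have hD' : (1 : ℝ) ≤ D := by exact_mod_cast hD
  have hH' : (1 : ℝ) ≤ H := by exact_mod_cast hH
  have hq' : (2 : ℝ) ≤ q := by exact_mod_cast hq
  have hlq : 1 / 2 ≤ Real.log q :=
    le_trans (by linarith [Real.log_two_gt_d9]) (Real.log_le_log (by norm_num) hq')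
  have hlD : 0 ≤ Real.log D := Real.log_nonneg hD'
  have hlH : 0 ≤ Real.log H := Real.log_nonneg hH'
  have hl2 : 0 < Real.log 2 := Real.log_pos (by norm_num)
  have hl2' : Real.log 2 ≤ 1 := by linarith [Real.log_two_lt_d9]
  unfold NC
  have hC : 0 < (A + u).choose u := Nat.choose_pos (Nat.le_add_left u A)
  -- the logarithm of the left side
  have hx : Real.log (((B * (A + u).choose u) *
      (((u + 1) * (2 * D ^ 2) ^ (u + 1)) ^ A * (H ^ (u + 1)) ^ B) : ℕ) : ℝ) =
      Real.log B + Real.log ((A + u).choose u) +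
        (A * (Real.log (u + 1) + (u + 1) * (Real.log 2 + 2 * Real.log D)) +
          B * ((u + 1) * Real.log H)) := by
    have hC' : ((A + u).choose u : ℝ) ≠ 0 := by exact_mod_cast hC.ne'
    have e1 : (B : ℝ) ≠ 0 := by linarith
    have e2 : (D : ℝ) ≠ 0 := by linarith
    have e3 : (H : ℝ) ≠ 0 := by linarith
    have e4 : ((u : ℝ) + 1) ≠ 0 := by linarith
    push_cast
    rw [Real.log_mul (mul_ne_zero e1 hC') (mul_ne_zero
      (pow_ne_zero _ (mul_ne_zero e4 (pow_ne_zero _ (mul_ne_zero two_ne_zero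
        (pow_ne_zero _ e2))))) (pow_ne_zero _ (pow_ne_zero _ e3))), Real.log_mul e1 hC',
      Real.log_mul (pow_ne_zero _ (mul_ne_zero e4 (pow_ne_zero _ (mul_ne_zero two_ne_zero
        (pow_ne_zero _ e2))))) (pow_ne_zero _ (pow_ne_zero _ e3)), Real.log_pow, Real.log_pow,
      Real.log_pow, Real.log_mul e4 (pow_ne_zero _ (mul_ne_zero two_ne_zero
        (pow_ne_zero _ e2))), Real.log_pow, Real.log_mul two_ne_zero (pow_ne_zero _ e2),
      Real.log_pow]
    push_cast
    ring
  have hpos : 0 < (B * (A + u).choose u) *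
      (((u + 1) * (2 * D ^ 2) ^ (u + 1)) ^ A * (H ^ (u + 1)) ^ B) := by
    have : 0 < B := by exact_mod_cast (by linarith : (0 : ℝ) < B)
    positivity
  have hk : (A : ℝ) * B / (2 * u) - A - 1 ≤ (((A * B / u - 2 * A) / 2 : ℕ) : ℝ) := by
    have k1 : A * B < (A * B / u + 1) * u := by
      have := Nat.lt_div_mul_add (a := A * B) (b := u) (by omega)
      calc A * B < A * B / u * u + u := this
        _ = (A * B / u + 1) * u := by ring
    have k2 : (A : ℝ) * B / u < ((A * B / u : ℕ) : ℝ) + 1 := by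
      rw [div_lt_iff₀ hu0]
      exact_mod_cast k1
    have k3 : A * B / u ≤ (A * B / u - 2 * A) + 2 * A := by omega
    have k4 : (((A * B / u : ℕ) : ℝ)) ≤ ((A * B / u - 2 * A : ℕ) : ℝ) + 2 * A := by
      exact_mod_cast k3
    have k5 : A * B / u - 2 * A ≤ 2 * ((A * B / u - 2 * A) / 2) + 1 := by omega
    have k6 : ((A * B / u - 2 * A : ℕ) : ℝ) ≤ 2 * (((A * B / u - 2 * A) / 2 : ℕ) : ℝ) + 1 := by
      exact_mod_cast k5
    have k7 : (A : ℝ) * B / (2 * u) = (A : ℝ) * B / u / 2 := by field_simp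
    rw [k7]
    linarith
  -- comparison
  set c : ℝ := (A : ℝ) * B / u with hc
  have hcu : c * u = A * B := by rw [hc]; field_simp
  have hc0 : 0 < c := by positivity
  have hA0 : (0 : ℝ) < A := by linarith
  have hB0 : (0 : ℝ) < B := by linarith
  have t1 : Real.log B ≤ c / 100 := by
    have k1 : Real.log B ≤ B := (Real.log_le_sub_one_of_pos hB0).trans (by linarith)
    refine k1.trans ?_
    rw [hc, div_div, le_div_iff₀ (by positivity)]
    nlinarith
  have t2 : Real.log ((A + u).choose u) ≤ c / 100 := by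
    have k1 : ((A + u).choose u : ℝ) ≤ 2 ^ (A + u) := by exact_mod_cast Nat.choose_le_two_pow _ _
    have k2 : Real.log ((A + u).choose u) ≤ (A + u) * Real.log 2 := by
      have k3 := Real.log_le_log (by exact_mod_cast hC) k1
      rw [Real.log_pow] at k3
      push_cast at k3
      exact k3
    have k3 : ((A : ℝ) + u) * Real.log 2 ≤ 2 * A := by nlinarith
    refine (k2.trans k3).trans ?_
    rw [hc, div_div, le_div_iff₀ (by positivity)]
    have k4 : 200 * (u : ℝ) ≤ B := by nlinarith
    nlinarith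
  have t3 : A * Real.log (u + 1) ≤ c / 100 := by
    have k1 : Real.log (u + 1) ≤ u :=
      (Real.log_le_sub_one_of_pos (by linarith)).trans (by linarith)
    refine (mul_le_mul_of_nonneg_left k1 hA0.le).trans ?_
    rw [hc, div_div, le_div_iff₀ (by positivity)]
    nlinarith
  have t4 : A * ((u + 1) * (Real.log 2 + 2 * Real.log D)) ≤ c / 100 := by
    rw [hc, div_div, le_div_iff₀ (by positivity)]
    have := mul_le_mul_of_nonneg_left h2 hA0.le
    linarith
  have t5 : B * ((u + 1) * Real.log H) ≤ c / 100 := by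
    rw [hc, div_div, le_div_iff₀ (by positivity)]
    have := mul_le_mul_of_nonneg_left h3 hB0.le
    linarith
  have t6 : (A : ℝ) ≤ c / 100 := by
    rw [hc, div_div, le_div_iff₀ (by positivity)]
    have k4 : 200 * (u : ℝ) ≤ B := by nlinarith
    nlinarith
  have hlog : Real.log (((B * (A + u).choose u) *
      (((u + 1) * (2 * D ^ 2) ^ (u + 1)) ^ A * (H ^ (u + 1)) ^ B) : ℕ) : ℝ) <
      (((A * B / u - 2 * A) / 2 : ℕ) : ℝ) * Real.log q := by
    rw [hx]
    have k1 : c / 4 ≤ (((A * B / u - 2 * A) / 2 : ℕ) : ℝ) := by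
      refine le_trans ?_ hk
      have : (A : ℝ) * B / (2 * u) = c / 2 := by rw [hc]; field_simp
      rw [this]
      linarith
    have k2 : c / 4 * (1 / 2) ≤ (((A * B / u - 2 * A) / 2 : ℕ) : ℝ) * Real.log q :=
      mul_le_mul k1 hlq (by norm_num) (by positivity)
    have k3 : (A : ℝ) * (Real.log (u + 1) + (u + 1) * (Real.log 2 + 2 * Real.log D)) =
        A * Real.log (u + 1) + A * ((u + 1) * (Real.log 2 + 2 * Real.log D)) := by ring
    rw [k3]
    linarith
  rw [← Real.log_pow] at hlog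
  have h9 := (Real.log_lt_log_iff (by exact_mod_cast hpos) (by positivity)).1 hlog
  exact_mod_cast h9

end Pool.Agent.H14.AG
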