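import Pool.Agent.H14.AG.RLA

/-!
# Few relations, large modulus: numerical lemmas
-/

set_option autoImplicit false

namespace Pool.Agent.H14.AG

open Pool.Agent.H38.RB Pool.Agent.H38.PS Pool.Agent.H82.RD Pool.Agent.H38.AB Pool.Agent.H38.AG

/-- the bound for the minors -/
theorem logD_le {L ℓ : ℝ} {N T Bd : ℕ} (hL : 1000 ≤ L) (hℓ : ℓ ≤ 30 * L) (hT1 : 1 ≤ T)
    (hT : Real.log T ≤ ℓ / 8) (hN : Real.log (N + 1) ≤ L) (hB1 : 1 ≤ Bd)
    (hB : Real.log Bd ≤ 62 * L) :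
    Real.log ((N.factorial * Bd ^ N : ℕ) : ℝ) ≤ 63 * N * L ∧
    Real.log (((N + 1) * T * (N.factorial * Bd ^ N) : ℕ) : ℝ) ≤ 70 * (N + 1) * L := by
  have hN0 : (0 : ℝ) ≤ N := Nat.cast_nonneg N
  have hF : (0 : ℝ) < (N.factorial : ℝ) := by exact_mod_cast Nat.factorial_pos N
  have hBp : (0 : ℝ) < (Bd : ℝ) := by exact_mod_cast (by omega : 0 < Bd)
  have hTp : (0 : ℝ) < (T : ℝ) := by exact_mod_cast (by omega : 0 < T)
  have h1 : Real.log (N.factorial : ℝ) ≤ N * L := by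
    have k1 : ((N.factorial : ℕ) : ℝ) ≤ ((N : ℝ) + 1) ^ N := by
      have k2 : N.factorial ≤ (N + 1) ^ N :=
        (Nat.factorial_le_pow N).trans (Nat.pow_le_pow_left (by omega) N)
      exact_mod_cast k2
    have k3 := Real.log_le_log hF k1
    rw [Real.log_pow] at k3
    exact k3.trans (mul_le_mul_of_nonneg_left hN hN0)
  have h2 : Real.log ((N.factorial * Bd ^ N : ℕ) : ℝ) ≤ 63 * N * L := by
    push_cast
    rw [Real.log_mul hF.ne' (pow_ne_zero _ hBp.ne'), Real.log_pow]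
    have := mul_le_mul_of_nonneg_left hB hN0
    linarith
  refine ⟨h2, ?_⟩
  have h3 : (0 : ℝ) < ((N.factorial * Bd ^ N : ℕ) : ℝ) := by push_cast; positivity
  rw [Nat.cast_mul, Nat.cast_mul, Real.log_mul (mul_ne_zero (by positivity) hTp.ne') h3.ne',
    Real.log_mul (by positivity) hTp.ne']
  push_cast at h2 ⊢
  have h4 : 0 ≤ (N : ℝ) * L := mul_nonneg hN0 (by linarith)
  have h5 : 63 * (N : ℝ) * L + 5 * L ≤ 70 * (N + 1) * L := by
    have h6 : 70 * ((N : ℝ) + 1) * L = 70 * (N * L) + 70 * L := by ring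
    have h7 : 63 * (N : ℝ) * L = 63 * (N * L) := by ring
    linarith
  linarith

/-- the conclusion from the inequality between the numbers of tuples and of values -/
theorem fin_le {L M₂ ℓ S : ℝ} {q T A B m r d : ℕ} (hL : 1000 ≤ L) (hM : 1 ≤ M₂)
    (hℓ0 : 100000 * M₂ ≤ ℓ) (hq : 0 < q) (hlq : Real.log q ≤ L)
    (hT : ℓ / 8 ≤ Real.log (T + 1)) (hT1 : 1 ≤ T) (hA1 : 1 ≤ A) (hB1 : 1 ≤ B)
    (hm : Real.log (m + 1) ≤ 1 + ℓ / 5000)
    (hA : Real.log A ≤ 1 + Real.log T + 3 * Real.log (m + 1) + 2 * M₂)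
    (hB : Real.log B ≤ 6 + ℓ / 1000 + 3 * M₂)
    (hS : (m + 1) * Real.log (m + 1) ≤ 2 * S)
    (hr : r + d ≤ m) (h : (T + 1) ^ m ≤ 4 * q * ((r + 1) * B * ((r + 1) * A) ^ r)) :
    (d : ℝ) * ℓ ≤ 90 * S + 30 * m * M₂ + L * ℓ := by
  have hq' : (0 : ℝ) < q := by exact_mod_cast hq
  have hT' : (1 : ℝ) ≤ T := by exact_mod_cast hT1
  have hA' : (1 : ℝ) ≤ A := by exact_mod_cast hA1
  have hB' : (1 : ℝ) ≤ B := by exact_mod_cast hB1
  have hm0 : (0 : ℝ) ≤ m := Nat.cast_nonneg m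
  have hd0 : (0 : ℝ) ≤ d := Nat.cast_nonneg d
  have hr0 : (0 : ℝ) ≤ r := Nat.cast_nonneg r
  have hrm : (r : ℝ) + d ≤ m := by exact_mod_cast hr
  have hℓ : 100000 ≤ ℓ := by linarith
  have hlr : Real.log (r + 1) ≤ Real.log (m + 1) := Real.log_le_log (by linarith) (by linarith)
  have hlm0 : 0 ≤ Real.log ((m : ℝ) + 1) := Real.log_nonneg (by linarith)
  have hlT : Real.log T ≤ Real.log (T + 1) := Real.log_le_log (by linarith) (by linarith)
  have h1 : (m : ℝ) * Real.log (T + 1) ≤ Real.log 4 + Real.log q + (Real.log (r + 1) +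
      Real.log B + r * (Real.log (r + 1) + Real.log A)) := by
    have h' : ((T : ℝ) + 1) ^ m ≤ 4 * q * ((r + 1) * B * ((r + 1) * A) ^ r) := by
      exact_mod_cast h
    have k1 := Real.log_le_log (by positivity) h'
    have e1 : (r : ℝ) + 1 ≠ 0 := by linarith
    have e2 : (B : ℝ) ≠ 0 := by linarith
    have e3 : (A : ℝ) ≠ 0 := by linarith
    rw [Real.log_pow, Real.log_mul (mul_ne_zero four_ne_zero hq'.ne')
      (mul_ne_zero (mul_ne_zero e1 e2) (pow_ne_zero _ (mul_ne_zero e1 e3))),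
      Real.log_mul four_ne_zero hq'.ne', Real.log_mul (mul_ne_zero e1 e2)
      (pow_ne_zero _ (mul_ne_zero e1 e3)), Real.log_mul e1 e2, Real.log_pow,
      Real.log_mul e1 e3] at k1
    exact k1
  have hl4 : Real.log 4 ≤ 2 := by
    have : (4 : ℝ) = 2 ^ 2 := by norm_num
    rw [this, Real.log_pow]
    push_cast
    linarith [Real.log_two_lt_d9]
  have hlT0 : 0 ≤ Real.log ((T : ℝ) + 1) := Real.log_nonneg (by linarith)
  have h2 : ((r : ℝ) + d) * Real.log (T + 1) ≤ m * Real.log (T + 1) :=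
    mul_le_mul_of_nonneg_right hrm hlT0
  -- the exponent of `A`
  have h3 : (r : ℝ) * (Real.log (r + 1) + Real.log A) ≤
      r * Real.log (T + 1) + m * (1 + 4 * Real.log (m + 1) + 2 * M₂) := by
    have k1 : Real.log (r + 1) + Real.log A ≤
        Real.log (T + 1) + (1 + 4 * Real.log (m + 1) + 2 * M₂) := by linarith
    have k2 := mul_le_mul_of_nonneg_left k1 hr0
    have k3 : (r : ℝ) * (1 + 4 * Real.log (m + 1) + 2 * M₂) ≤
        m * (1 + 4 * Real.log (m + 1) + 2 * M₂) :=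
      mul_le_mul_of_nonneg_right (by linarith) (by linarith)
    rw [mul_add] at k2
    linarith
  have h4 : (d : ℝ) * (ℓ / 8) ≤ d * Real.log (T + 1) := mul_le_mul_of_nonneg_left hT hd0
  have h5 : (d : ℝ) * ℓ ≤ 8 * (2 + L + (1 + ℓ / 5000) + (6 + ℓ / 1000 + 3 * M₂)) +
      8 * (m * (1 + 4 * Real.log (m + 1) + 2 * M₂)) := by
    rw [add_mul] at h2
    linarith
  have h6 : 8 * (2 + L + (1 + ℓ / 5000) + (6 + ℓ / 1000 + 3 * M₂)) ≤ L * ℓ := by
    have k1 : 1000 * ℓ ≤ L * ℓ := mul_le_mul_of_nonneg_right hL (by linarith)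
    have k2 : L * 100000 ≤ L * ℓ := mul_le_mul_of_nonneg_left hℓ (by linarith)
    linarith
  have h7 : 8 * (m * (1 + 4 * Real.log (m + 1) + 2 * M₂)) ≤ 90 * S + 30 * m * M₂ := by
    have k1 : (m : ℝ) * Real.log (m + 1) ≤ 2 * S := by linarith
    have k2 : (m : ℝ) ≤ m * M₂ := by
      have := mul_le_mul_of_nonneg_left hM hm0
      linarith
    have k3 : 0 ≤ (m : ℝ) * Real.log (m + 1) := mul_nonneg hm0 hlm0
    have k4 : 0 ≤ S := by linarith
    have k5 : 0 ≤ (m : ℝ) * M₂ := by linarith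
    have e : 8 * ((m : ℝ) * (1 + 4 * Real.log (m + 1) + 2 * M₂)) =
        8 * m + 32 * (m * Real.log (m + 1)) + 16 * (m * M₂) := by ring
    rw [e]
    linarith
  linarith

theorem pair_le {u n : ℝ} (h1 : 1 ≤ u) (h2 : u ≤ n) : u * (u + 1) ≤ (n + 1) ^ 2 := by
  have h3 : u * (u + 1) ≤ (n + 1) * (n + 1) :=
    mul_le_mul (by linarith) (by linarith) (by linarith) (by linarith)
  rw [pow_two]
  exact h3

/-- the four conditions for the numerical inequality of the machine -/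
theorem ncond {L T m N u A B lD lH : ℝ} (hL : 1000 ≤ L) (hT : 1 ≤ T) (hmN : m ≤ N) (hu1 : 1 ≤ u)
    (hu2 : u ≤ m) (hA : T * (m + 1) ^ 3 * L ^ 2 ≤ A) (hB : (N + 1) ^ 5 * L ^ 3 ≤ B)
    (hlD : lD ≤ 70 * (N + 1) * L) (hlH : lH ≤ T * (m * L)) :
    100 * u ≤ A ∧ 100 * u * (u + 1) * (Real.log 2 + 2 * lD) ≤ B ∧
      100 * u * (u + 1) * lH ≤ A ∧ 200 * u * u ≤ B := by
  have hL1 : 1 ≤ L := by linarith
  have hm1 : 1 ≤ m + 1 := by linarith
  have hn1 : 1 ≤ N + 1 := by linarith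
  have hL2 : 1000 * 1000 ≤ L ^ 2 := by
    rw [pow_two]
    exact mul_le_mul hL hL (by norm_num) (by linarith)
  have hl2 : Real.log 2 ≤ 1 := by linarith [Real.log_two_lt_d9]
  refine ⟨hA.trans' ?_, hB.trans' ?_, hA.trans' ?_, hB.trans' ?_⟩
  · have k1 : 1 ≤ (m + 1) ^ 2 := one_le_pow₀ hm1
    have k2 : m + 1 ≤ T * (m + 1) ^ 3 := by
      calc m + 1 = 1 * ((m + 1) * 1) := by ring
        _ ≤ T * ((m + 1) * (m + 1) ^ 2) :=
          mul_le_mul hT (mul_le_mul_of_nonneg_left k1 (by linarith)) (by linarith)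
            (by linarith)
        _ = T * (m + 1) ^ 3 := by ring
    calc 100 * u ≤ L ^ 2 * (m + 1) := mul_le_mul (by linarith) (by linarith) (by linarith)
          (by positivity)
      _ = (m + 1) * L ^ 2 := by ring
      _ ≤ T * (m + 1) ^ 3 * L ^ 2 := mul_le_mul_of_nonneg_right k2 (by positivity)
  · have k0 : 1 ≤ (N + 1) * L := one_le_mul_of_one_le_of_one_le hn1 hL1
    have k1 : Real.log 2 + 2 * lD ≤ 141 * ((N + 1) * L) := by linarith
    have k2 : u * (u + 1) ≤ (N + 1) ^ 2 := pair_le hu1 (hu2.trans hmN)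
    have k3 : 1 ≤ (N + 1) ^ 2 := one_le_pow₀ hn1
    have k4 : 14100 ≤ (N + 1) ^ 2 * L ^ 2 := by
      calc (14100 : ℝ) = 1 * 14100 := by norm_num
        _ ≤ (N + 1) ^ 2 * L ^ 2 := mul_le_mul k3 (by linarith) (by norm_num) (by positivity)
    calc 100 * u * (u + 1) * (Real.log 2 + 2 * lD)
        = 100 * (u * (u + 1) * (Real.log 2 + 2 * lD)) := by ring
      _ ≤ 100 * ((N + 1) ^ 2 * (141 * ((N + 1) * L))) := by
          refine mul_le_mul_of_nonneg_left ?_ (by norm_num)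
          refine (mul_le_mul_of_nonneg_left k1 (by positivity)).trans ?_
          exact mul_le_mul_of_nonneg_right k2 (by positivity)
      _ = 14100 * ((N + 1) ^ 3 * L) := by ring
      _ ≤ ((N + 1) ^ 2 * L ^ 2) * ((N + 1) ^ 3 * L) :=
          mul_le_mul_of_nonneg_right k4 (by positivity)
      _ = (N + 1) ^ 5 * L ^ 3 := by ring
  · have k2 : u * (u + 1) ≤ (m + 1) ^ 2 := pair_le hu1 hu2
    calc 100 * u * (u + 1) * lH = 100 * (u * (u + 1) * lH) := by ring
      _ ≤ 100 * ((m + 1) ^ 2 * (T * ((m + 1) * L))) := by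
          refine mul_le_mul_of_nonneg_left ?_ (by norm_num)
          refine (mul_le_mul_of_nonneg_left hlH (by positivity)).trans ?_
          refine mul_le_mul k2 ?_ (by
            have : 0 ≤ m := by linarith
            positivity) (by positivity)
          refine mul_le_mul_of_nonneg_left ?_ (by linarith)
          exact mul_le_mul_of_nonneg_right (by linarith) (by linarith)
      _ = 100 * (T * (m + 1) ^ 3 * L) := by ring
      _ ≤ L * (T * (m + 1) ^ 3 * L) :=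
          mul_le_mul_of_nonneg_right (by linarith) (by positivity)
      _ = T * (m + 1) ^ 3 * L ^ 2 := by ring
  · have k2 : u * (u + 1) ≤ (N + 1) ^ 2 := pair_le hu1 (hu2.trans hmN)
    have k1 : u * u ≤ (N + 1) ^ 2 :=
      (mul_le_mul_of_nonneg_left (by linarith) (by linarith)).trans k2
    have k3 : 1 ≤ (N + 1) ^ 3 := one_le_pow₀ hn1
    have k4 : L ^ 2 ≤ L ^ 3 := pow_le_pow_right₀ hL1 (by norm_num)
    calc 200 * u * u = 200 * (u * u) := by ring
      _ ≤ L ^ 3 * (N + 1) ^ 2 := mul_le_mul (by linarith) k1 (by positivity) (by positivity)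
      _ = ((N + 1) ^ 2 * 1) * L ^ 3 := by ring
      _ ≤ ((N + 1) ^ 2 * (N + 1) ^ 3) * L ^ 3 :=
          mul_le_mul_of_nonneg_right (mul_le_mul_of_nonneg_left k3 (by positivity))
            (by positivity)
      _ = (N + 1) ^ 5 * L ^ 3 := by ring

/-- the sizes of the parameters -/
theorem sizes {L w T m N A B : ℝ} (hL1 : 1 ≤ L) (hw : 1000 ≤ w) (hwL : L ^ 20 ≤ w)
    (hT : 1 ≤ T) (hTw : T ≤ w ^ 625) (hm0 : 0 ≤ m) (hmN : m ≤ N) (hN : N ≤ w) (hB0 : 0 ≤ B)
    (hA2 : A ≤ 2 * (T * (m + 1) ^ 3 * L ^ 2)) (hB2 : B ≤ 2 * ((N + 1) ^ 5 * L ^ 3)) :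
    A * B ≤ w ^ 650 ∧ T * (m * L) ≤ w ^ 650 := by
  have hw0 : 1 ≤ w := by linarith
  have hL0 : 0 < L := by linarith
  have hN0 : 0 ≤ N := hm0.trans hmN
  have hnw : N + 1 ≤ w ^ 2 := by
    calc N + 1 ≤ 2 * w := by linarith
      _ ≤ w * w := mul_le_mul_of_nonneg_right (by linarith) (by linarith)
      _ = w ^ 2 := by ring
  have hmw : m + 1 ≤ w ^ 2 := by linarith
  have hL1w : L ≤ w := by
    have := (pow_le_pow_right₀ hL1 (by norm_num : 1 ≤ 20)).trans hwL
    rwa [pow_one] at this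
  have hAw : A ≤ w ^ 633 := by
    refine hA2.trans ?_
    have k1 : (m + 1) ^ 3 ≤ (w ^ 2) ^ 3 := pow_le_pow_left₀ (by linarith) hmw 3
    have k2 : L ^ 2 ≤ w := (pow_le_pow_right₀ hL1 (by norm_num)).trans hwL
    calc 2 * (T * (m + 1) ^ 3 * L ^ 2) ≤ w * (w ^ 625 * (w ^ 2) ^ 3 * w) := by
          refine mul_le_mul (by linarith) ?_ (by positivity) (by linarith)
          refine mul_le_mul ?_ k2 (by positivity) (by positivity)
          exact mul_le_mul hTw k1 (by positivity) (by positivity)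
      _ = w ^ 633 := by ring
  have hBw : B ≤ w ^ 12 := by
    refine hB2.trans ?_
    have k1 : (N + 1) ^ 5 ≤ (w ^ 2) ^ 5 := pow_le_pow_left₀ (by linarith) hnw 5
    have k2 : L ^ 3 ≤ w := (pow_le_pow_right₀ hL1 (by norm_num)).trans hwL
    calc 2 * ((N + 1) ^ 5 * L ^ 3) ≤ w * ((w ^ 2) ^ 5 * w) := by
          refine mul_le_mul (by linarith) ?_ (by positivity) (by linarith)
          exact mul_le_mul k1 k2 (by positivity) (by positivity)
      _ = w ^ 12 := by ring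
  constructor
  · calc A * B ≤ w ^ 633 * w ^ 12 := mul_le_mul hAw hBw hB0 (by positivity)
      _ = w ^ 645 := by rw [← pow_add]
      _ ≤ w ^ 650 := pow_le_pow_right₀ hw0 (by norm_num)
  · calc T * (m * L) ≤ w ^ 625 * (w * w) := by
          refine mul_le_mul hTw ?_ (mul_nonneg hm0 hL0.le) (pow_nonneg (by linarith) _)
          exact mul_le_mul (hmN.trans hN) hL1w (by linarith) (by linarith)
      _ = w ^ 627 := by ring
      _ ≤ w ^ 650 := pow_le_pow_right₀ hw0 (by norm_num)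

/-- the size of the denominators -/
theorem kap {L w N κ lq : ℝ} (hL1 : 1 ≤ L) (hw : 1000 ≤ w) (hLw : L ≤ w) (hN0 : 0 ≤ N)
    (hN : N ≤ w) (hlq : 1 / 2 ≤ lq) (h : κ * lq ≤ lq + 63 * N * L) : κ ≤ w ^ 650 := by
  have hw0 : 1 ≤ w := by linarith
  have hNL : 0 ≤ N * L := by positivity
  have k5 : κ ≤ 1 + 126 * (N * L) := by
    by_contra hcon
    push Not at hcon
    have k6 : 0 < κ - 1 := by linarith
    have k7 : (κ - 1) * (1 / 2) ≤ (κ - 1) * lq := mul_le_mul_of_nonneg_left hlq k6.le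
    have k8 : (κ - 1) * lq = κ * lq - lq := by ring
    linarith
  refine k5.trans ?_
  have k6 : N * L ≤ w * w := mul_le_mul hN hLw (by linarith) (by linarith)
  have k8 : 1 ≤ w * w := one_le_mul_of_one_le_of_one_le hw0 hw0
  have k7 : 126 * (w * w) ≤ w * (w * w) :=
    mul_le_mul_of_nonneg_right (by linarith) (by linarith)
  calc 1 + 126 * (N * L) ≤ w * (w * w) + w * (w * w) := by linarith
    _ = 2 * (w * (w * w)) := by ring
    _ ≤ w * (w * (w * w)) := mul_le_mul_of_nonneg_right (by linarith) (by positivity)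
    _ = w ^ 4 := by ring
    _ ≤ w ^ 650 := pow_le_pow_right₀ hw0 (by norm_num)

end Pool.Agent.H14.AG
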