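import Pool.Agent.H14.AG.RLB

/-!
# Few relations, large modulus
-/

set_option autoImplicit false

namespace Pool.Agent.H14.AG

open Pool.Agent.H38.RB Pool.Agent.H38.PS Pool.Agent.H82.RD Pool.Agent.H38.AB Pool.Agent.H38.AG

theorem pf_RLL (hRLM : T_RLM) : T_RLL := by
  refine ⟨100000, Real.exp 1000, by norm_num, ?_, ?_⟩
  · have := Real.add_one_le_exp (1000 : ℝ)
    linarith
  intro X ℓ q e Bd J Q hX hℓ1 hℓ2 hq hqX hQJ hJ hJc hBd1 hBd2 he
  have hX0 : 0 < X := (Real.exp_pos _).trans_le hX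
  obtain ⟨L, hLd⟩ : ∃ L, Real.log X = L := ⟨_, rfl⟩
  rw [hLd] at hℓ1 hℓ2 ⊢
  have hL : 1000 ≤ L := by
    rw [← hLd]
    exact (Real.le_log_iff_exp_le hX0).2 hX
  obtain ⟨M₂, hMd⟩ : ∃ M₂, Real.log L = M₂ := ⟨_, rfl⟩
  rw [hMd] at hℓ1 ⊢
  have hL0 : 0 < L := by linarith
  have hM : 1 ≤ M₂ := by
    rw [← hMd, Real.le_log_iff_exp_le hL0]
    linarith [Real.exp_one_lt_d9]
  have hℓ : 100000 ≤ ℓ := by linarith
  have hℓ0 : 0 < ℓ := by linarith
  -- the basic large number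
  obtain ⟨w, hw⟩ : ∃ w, Real.exp (ℓ / 5000) = w := ⟨_, rfl⟩
  rw [hw] at hJc ⊢
  have hwL : L ^ 20 ≤ w := by
    rw [← hw, ← Real.exp_log hL0, ← Real.exp_nat_mul, Real.exp_le_exp, hMd]
    push_cast
    linarith
  have hL1 : 1 ≤ L := by linarith
  have hw1 : 1000 ≤ w := by
    have : L ^ 1 ≤ L ^ 20 := pow_le_pow_right₀ hL1 (by norm_num)
    linarith
  have hw0 : 1 ≤ w := by linarith
  have hwp : 0 < w := by linarith
  have hwL5 : L ^ 5 ≤ w := (pow_le_pow_right₀ hL1 (by norm_num)).trans hwL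
  have hwL1 : L ≤ w := by
    have : L ^ 1 ≤ L ^ 20 := pow_le_pow_right₀ hL1 (by norm_num)
    linarith
  have hw625 : Real.exp (ℓ / 8) = w ^ 625 := by
    rw [← hw, ← Real.exp_nat_mul]
    congr 1
    push_cast
    ring
  have hw2500 : Real.exp (ℓ / 2) = w ^ 2500 := by
    rw [← hw, ← Real.exp_nat_mul]
    congr 1
    push_cast
    ring
  -- the sizes
  have hmN : Q.card ≤ J.card := Finset.card_le_card hQJ
  obtain ⟨m, hmd⟩ : ∃ m, Q.card = m := ⟨_, rfl⟩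
  obtain ⟨N, hNd⟩ : ∃ N, J.card = N := ⟨_, rfl⟩
  rw [hmd, hNd] at hmN
  rw [hNd] at hJc
  have hmN' : (m : ℝ) ≤ N := by exact_mod_cast hmN
  have hm0 : (0 : ℝ) ≤ m := Nat.cast_nonneg m
  have hN0 : (0 : ℝ) ≤ N := Nat.cast_nonneg N
  obtain ⟨T, hTd⟩ : ∃ T, ⌊Real.exp (ℓ / 8)⌋₊ = T := ⟨_, rfl⟩
  have hexp8 : 1 ≤ Real.exp (ℓ / 8) := Real.one_le_exp (by linarith)
  have hT1 : 1 ≤ T := by
    rw [← hTd]
    exact Nat.le_floor (by exact_mod_cast hexp8)
  have hT' : (1 : ℝ) ≤ T := by exact_mod_cast hT1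
  have hTle : (T : ℝ) ≤ Real.exp (ℓ / 8) := by
    rw [← hTd]
    exact Nat.floor_le (by positivity)
  have hTlt : Real.exp (ℓ / 8) < T + 1 := by
    rw [← hTd]
    exact Nat.lt_floor_add_one _
  have hlogT : Real.log T ≤ ℓ / 8 := by
    rw [Real.log_le_iff_le_exp (by linarith)]
    exact hTle
  have hlogT1 : ℓ / 8 ≤ Real.log (T + 1) := by
    rw [Real.le_log_iff_exp_le (by linarith)]
    exact hTlt.le
  -- `A` and `B`
  have hAr1 : 1 ≤ (T : ℝ) * (m + 1) ^ 3 * L ^ 2 := by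
    have k1 : (1 : ℝ) ≤ ((m : ℝ) + 1) ^ 3 := one_le_pow₀ (by linarith)
    have k2 : (1 : ℝ) ≤ L ^ 2 := one_le_pow₀ hL1
    exact one_le_mul_of_one_le_of_one_le (one_le_mul_of_one_le_of_one_le hT' k1) k2
  have hBr1 : 1 ≤ ((N : ℝ) + 1) ^ 5 * L ^ 3 := by
    have k1 : (1 : ℝ) ≤ ((N : ℝ) + 1) ^ 5 := one_le_pow₀ (by linarith)
    have k2 : (1 : ℝ) ≤ L ^ 3 := one_le_pow₀ hL1
    exact one_le_mul_of_one_le_of_one_le k1 k2
  obtain ⟨A, hAd⟩ : ∃ A, ⌈(T : ℝ) * (m + 1) ^ 3 * L ^ 2⌉₊ = A := ⟨_, rfl⟩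
  obtain ⟨B, hBd⟩ : ∃ B, ⌈((N : ℝ) + 1) ^ 5 * L ^ 3⌉₊ = B := ⟨_, rfl⟩
  have hA1 : (T : ℝ) * (m + 1) ^ 3 * L ^ 2 ≤ A := by
    rw [← hAd]
    exact Nat.le_ceil _
  have hA2 : (A : ℝ) ≤ 2 * ((T : ℝ) * (m + 1) ^ 3 * L ^ 2) := by
    have := Nat.ceil_lt_add_one (zero_le_one.trans hAr1)
    rw [hAd] at this
    linarith
  have hB1 : ((N : ℝ) + 1) ^ 5 * L ^ 3 ≤ B := by
    rw [← hBd]
    exact Nat.le_ceil _
  have hB2 : (B : ℝ) ≤ 2 * (((N : ℝ) + 1) ^ 5 * L ^ 3) := by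
    have := Nat.ceil_lt_add_one (zero_le_one.trans hBr1)
    rw [hBd] at this
    linarith
  have hAn : 1 ≤ A := by
    have : (1 : ℝ) ≤ A := hAr1.trans hA1
    exact_mod_cast this
  have hBn : 2 ≤ B := by
    have k1 : (1000 : ℝ) ^ 3 ≤ L ^ 3 := pow_le_pow_left₀ (by norm_num) hL 3
    have k2 : (1 : ℝ) ≤ ((N : ℝ) + 1) ^ 5 := one_le_pow₀ (by linarith)
    have k3 : L ^ 3 ≤ ((N : ℝ) + 1) ^ 5 * L ^ 3 := le_mul_of_one_le_left (by positivity) k2
    have : (2 : ℝ) ≤ B := by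
      have : (1000 : ℝ) ^ 3 = 1000000000 := by norm_num
      linarith
    exact_mod_cast this
  -- logarithms
  have hlogq : Real.log q ≤ L := by
    rw [← hLd]
    exact Real.log_le_log (by exact_mod_cast hq.pos) hqX
  have hlogB : Real.log Bd ≤ 62 * L := by
    have k1 := Real.log_le_log (by exact_mod_cast hBd1) hBd2
    rw [Real.log_pow, hLd] at k1
    push_cast at k1
    exact k1
  have hn1w : (N : ℝ) + 1 ≤ 2 * w := by linarith
  have hlw : Real.log w = ℓ / 5000 := by rw [← hw, Real.log_exp]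
  have hl2 : Real.log 2 ≤ 1 := by linarith [Real.log_two_lt_d9]
  have hlogN : Real.log ((N : ℝ) + 1) ≤ 1 + ℓ / 5000 := by
    have k1 := Real.log_le_log (by linarith) hn1w
    rw [Real.log_mul two_ne_zero (by linarith), hlw] at k1
    linarith
  obtain ⟨hlF, hlD⟩ := logD_le (N := N) (T := T) (Bd := Bd) hL hℓ2 hT1 hlogT (by linarith)
    hBd1 hlogB
  -- the primes
  have hprod0 : ∀ p ∈ Q, (1 : ℝ) ≤ p ∧ Real.log p ≤ L := by
    intro p hp
    obtain ⟨h1, h2, h3⟩ := hJ p (hQJ hp)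
    have h4 : (1 : ℝ) ≤ p := by exact_mod_cast h1.one_lt.le
    refine ⟨h4, ?_⟩
    rw [← hLd]
    exact Real.log_le_log (by linarith) h3
  have hprod1 : 1 ≤ ∏ p ∈ Q, p := Finset.prod_pos fun p hp => (hJ p (hQJ hp)).1.pos
  have hlogH : Real.log (((∏ p ∈ Q, p) ^ T : ℕ) : ℝ) ≤ T * (m * L) := by
    push_cast
    rw [Real.log_pow, Real.log_prod (fun p hp => by
      have := (hprod0 p hp).1
      linarith)]
    refine mul_le_mul_of_nonneg_left ?_ (by linarith)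
    refine (Finset.sum_le_card_nsmul _ _ L fun p hp => (hprod0 p hp).2).trans ?_
    rw [hmd, nsmul_eq_mul]
  have hHn : 1 ≤ (∏ p ∈ Q, p) ^ T := Nat.one_le_pow _ _ hprod1
  have : Fact q.Prime := ⟨hq⟩
  have hq2 : (2 : ℝ) ≤ q := by exact_mod_cast hq.two_le
  have hlq2 : 1 / 2 ≤ Real.log q :=
    le_trans (by linarith [Real.log_two_gt_d9]) (Real.log_le_log (by norm_num) hq2)
  -- sizes in terms of `w`
  have hTw : (T : ℝ) ≤ w ^ 625 := by rw [← hw625]; exact hTle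
  obtain ⟨hAB, hTmL⟩ := sizes hL1 hw1 hwL hT' hTw hm0 hmN' hJc (Nat.cast_nonneg B) hA2 hB2
  have he' : w ^ 2500 ≤ (e : ℝ) := by rw [← hw2500]; exact he
  have hbig : 1000 * w ^ 650 ≤ (e : ℝ) := by
    refine le_trans ?_ he'
    calc 1000 * w ^ 650 ≤ w * w ^ 650 := mul_le_mul_of_nonneg_right hw1 (by positivity)
      _ = w ^ 651 := by ring
      _ ≤ w ^ 2500 := pow_le_pow_right₀ hw0 (by norm_num)
  have hone : 1 ≤ w ^ 650 := one_le_pow₀ hw0
  have hκ : ∀ κ : ℕ, q ^ κ ≤ q * (N.factorial * Bd ^ N) → (κ : ℝ) ≤ w ^ 650 := by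
    intro κ hκ
    have k1 : ((q : ℝ) ^ κ) ≤ q * ((N.factorial * Bd ^ N : ℕ) : ℝ) := by exact_mod_cast hκ
    have k2 := Real.log_le_log (by positivity) k1
    have k3 : (0 : ℝ) < ((N.factorial * Bd ^ N : ℕ) : ℝ) := by
      have : 0 < N.factorial * Bd ^ N := Nat.mul_pos (Nat.factorial_pos N) (pow_pos hBd1 N)
      exact_mod_cast this
    rw [Real.log_pow, Real.log_mul (by linarith) k3.ne'] at k2
    have k4 : (κ : ℝ) * Real.log q ≤ Real.log q + 63 * N * L := by linarith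
    exact kap hL1 hw1 hwL1 hN0 hJc hlq2 k4
  obtain ⟨r, hr1, hr2⟩ := hRLM q e Bd T A B J Q hQJ hT1 hBd1 hAn hBn
    (fun u hu => ⟨(hJ u hu).1.two_le, (Nat.coprime_primes (hJ u hu).1 hq).2 (hJ u hu).2.1⟩)
    (fun u hu u' hu' hne => (Nat.coprime_primes (hJ u hu).1 (hJ u' hu').1).2 hne)
    (by
      rw [hNd]
      intro κ hk
      have hk' := hκ κ hk
      have k1 : 2 * (A * B + κ) + 3 ≤ e := by
        have : 2 * ((A : ℝ) * B + κ) + 3 ≤ e := by linarith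
        exact_mod_cast this
      refine ⟨by omega, ?_⟩
      have k2 : 3 + κ ≤ e := by omega
      have k3 : ((e - 3 - κ : ℕ) : ℝ) = e - 3 - κ := by
        rw [Nat.sub_sub, Nat.cast_sub k2]
        push_cast
        ring
      have k5 : Real.log (((∏ p ∈ Q, p) ^ T : ℕ) : ℝ) <
          ((e - 3 - κ : ℕ) : ℝ) * Real.log q := by
        have k6 : (w ^ 650 * 4) * (1 / 2) ≤ ((e - 3 - κ : ℕ) : ℝ) * Real.log q := by
          refine mul_le_mul ?_ hlq2 (by norm_num) (Nat.cast_nonneg _)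
          rw [k3]
          linarith
        linarith
      rw [← Real.log_pow] at k5
      have k7 := (Real.log_lt_log_iff (by exact_mod_cast hHn) (by positivity)).1 k5
      exact_mod_cast k7)
    (by
      rw [hNd, hmd]
      intro u hu1 hu2
      have hu1' : (1 : ℝ) ≤ u := by exact_mod_cast hu1
      have hu2' : (u : ℝ) ≤ m := by exact_mod_cast hu2
      have hDn : 1 ≤ (N + 1) * T * (N.factorial * Bd ^ N) :=
        Nat.mul_pos (Nat.mul_pos (Nat.succ_pos N) hT1)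
          (Nat.mul_pos (Nat.factorial_pos N) (pow_pos hBd1 N))
      obtain ⟨c1, c2, c3, c4⟩ := ncond hL hT' hmN' hu1' hu2' hA1 hB1 hlD hlogH
      exact nc_of hq.two_le hu1 hDn hHn c1 c2 c3 c4)
  rw [hmd] at hr1 hr2
  -- the end
  have hA0 : (0 : ℝ) < A := by linarith
  have hB0 : (0 : ℝ) < B := by linarith
  have hmlog : Real.log ((m : ℝ) + 1) ≤ Real.log ((N : ℝ) + 1) :=
    Real.log_le_log (by linarith) (by linarith)
  have hlogA : Real.log A ≤ 1 + Real.log T + 3 * Real.log (m + 1) + 2 * M₂ := by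
    have k1 := Real.log_le_log hA0 hA2
    rw [Real.log_mul two_ne_zero (by positivity), Real.log_mul (by positivity) (by positivity),
      Real.log_mul (by positivity) (by positivity), Real.log_pow, Real.log_pow, hMd] at k1
    push_cast at k1
    linarith
  have hlogB' : Real.log B ≤ 6 + ℓ / 1000 + 3 * M₂ := by
    have k1 := Real.log_le_log hB0 hB2
    rw [Real.log_mul two_ne_zero (by positivity), Real.log_mul (by positivity) (by positivity),
      Real.log_pow, Real.log_pow, hMd] at k1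
    push_cast at k1
    linarith
  have hS1 := sum_log w Q (fun u hu => (hJ u (hQJ hu)).1.two_le)
    (by rw [hmd]; exact hmN'.trans hJc)
  rw [hmd] at hS1
  have hS2 : ((m : ℝ) + 1) * Real.log (m + 1) ≤ 2 * Real.log ((m + 1).factorial : ℝ) := by
    have k1 : (((m : ℝ) + 1)) ^ (m + 1) ≤ ((m + 1).factorial : ℝ) * ((m + 1).factorial : ℝ) := by
      exact_mod_cast self_pow_le (m + 1)
    have k2 : (0 : ℝ) < ((m + 1).factorial : ℝ) := by exact_mod_cast Nat.factorial_pos _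
    have k3 := Real.log_le_log (by positivity) k1
    rw [Real.log_pow, Real.log_mul k2.ne' k2.ne'] at k3
    push_cast at k3
    linarith
  have hfin := fin_le (S := ∑ u ∈ Q, Real.log (min (u : ℝ) (w + 1))) hL hM hℓ1 hq.pos hlogq
    hlogT1 hT1 hAn (by omega) (hmlog.trans hlogN) hlogA hlogB' (by linarith) hr1 hr2
  have hsum : ∑ u ∈ Q, (90 * Real.log (min (u : ℝ) (w + 1)) + 30 * M₂) / ℓ =
      (90 * ∑ u ∈ Q, Real.log (min (u : ℝ) (w + 1)) + 30 * m * M₂) / ℓ := by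
    rw [← Finset.sum_div, Finset.sum_add_distrib, ← Finset.mul_sum, Finset.sum_const, hmd,
      nsmul_eq_mul]
    congr 1
    ring
  rw [hsum]
  have hgoal : (DQ q e Bd J Q : ℝ) ≤
      (90 * ∑ u ∈ Q, Real.log (min (u : ℝ) (w + 1)) + 30 * m * M₂ + L * ℓ) / ℓ := by
    rw [le_div_iff₀ hℓ0]
    exact hfin
  refine hgoal.trans (le_of_eq ?_)
  field_simp

end Pool.Agent.H14.AG
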