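import Pool.Agent.H38.AG.Targets

/-!
# Tuples with small product
-/

set_option autoImplicit false

namespace Pool.Agent.H14.AG

open Pool.Agent.H38.RB Pool.Agent.H38.PS Pool.Agent.H82.RD Pool.Agent.H38.AB Pool.Agent.H38.AG

/-- the tuples with product at most `Y` -/
def St (w : ℕ) (Y : ℝ) : Set (Fin w → ℕ) :=
  {j : Fin w → ℕ | (∀ i, 1 ≤ j i) ∧ ((∏ i, j i : ℕ) : ℝ) ≤ Y}

theorem St_sub (w : ℕ) (Y : ℝ) : St (w + 1) Y ⊆ ⋃ j ∈ Finset.Icc 1 ⌊Y⌋₊,
    (fun t : Fin w → ℕ => (Fin.cons j t : Fin (w + 1) → ℕ)) '' St w (Y / j) := by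
  rintro t ⟨h1, h2⟩
  rw [Fin.prod_univ_succ] at h2
  push_cast at h2
  have h0 : (1 : ℝ) ≤ (t 0 : ℝ) := by exact_mod_cast h1 0
  have hp : (1 : ℝ) ≤ ∏ i : Fin w, (t i.succ : ℝ) := by
    have h3 : 1 ≤ ∏ i : Fin w, t i.succ := Nat.pos_of_ne_zero
      (Finset.prod_ne_zero_iff.2 fun i _ => (Nat.pos_of_ne_zero (by have := h1 i.succ; omega)).ne')
    exact_mod_cast h3
  have h4 : (t 0 : ℝ) ≤ Y := by nlinarith
  have h5 : t 0 ≤ ⌊Y⌋₊ := Nat.le_floor h4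
  simp only [Set.mem_iUnion]
  refine ⟨t 0, Finset.mem_Icc.2 ⟨h1 0, h5⟩, fun i => t i.succ, ⟨fun i => h1 _, ?_⟩, ?_⟩
  · rw [le_div_iff₀ (by linarith)]
    push_cast
    linarith
  · funext i
    refine Fin.cases rfl (fun i => rfl) i

theorem pf_TUP : T_TUP := by
  intro w
  induction w with
  | zero =>
    intro Y hY
    refine ⟨Set.toFinite _, ?_⟩
    rw [pow_zero, mul_one]
    refine le_trans ?_ hY
    have h := Set.ncard_le_ncard (Set.subset_univ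
      {j : Fin 0 → ℕ | (∀ i, 1 ≤ j i) ∧ ((∏ i, j i : ℕ) : ℝ) ≤ Y}) (Set.toFinite _)
    have h1 : (Set.univ : Set (Fin 0 → ℕ)).ncard = 1 := by
      rw [Set.ncard_univ]
      simp
    rw [h1] at h
    exact_mod_cast h
  | succ w ih =>
    intro Y hY
    have hj : ∀ j ∈ Finset.Icc 1 ⌊Y⌋₊, (1 : ℝ) ≤ j ∧ 1 ≤ Y / (j : ℝ) := by
      intro j hj
      obtain ⟨h1, h2⟩ := Finset.mem_Icc.1 hj
      have h3 : (1 : ℝ) ≤ j := by exact_mod_cast h1
      have h4 : (j : ℝ) ≤ Y := (Nat.le_floor_iff (by linarith)).1 h2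
      exact ⟨h3, by rw [le_div_iff₀ (by linarith)]; linarith⟩
    have hf : ∀ j ∈ Finset.Icc 1 ⌊Y⌋₊, (St w (Y / j)).Finite := fun j h => (ih _ (hj j h).2).1
    have hfin : (⋃ j ∈ Finset.Icc 1 ⌊Y⌋₊,
        (fun t : Fin w → ℕ => (Fin.cons j t : Fin (w + 1) → ℕ)) '' St w (Y / j)).Finite :=
      Set.Finite.biUnion (Finset.finite_toSet _) fun j h => (hf j h).image _
    refine ⟨hfin.subset (St_sub w Y), ?_⟩
    have hlog : 0 ≤ Real.log Y := Real.log_nonneg hY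
    have h1 : (St (w + 1) Y).ncard ≤ ∑ j ∈ Finset.Icc 1 ⌊Y⌋₊, (St w (Y / j)).ncard := by
      refine (Set.ncard_le_ncard (St_sub w Y) hfin).trans ?_
      refine (Finset.set_ncard_biUnion_le _ _).trans ?_
      exact Finset.sum_le_sum fun j h => Set.ncard_image_le (hf j h)
    have h2 : ((St (w + 1) Y).ncard : ℝ) ≤
        ∑ j ∈ Finset.Icc 1 ⌊Y⌋₊, Y * (1 + Real.log Y) ^ w * (j : ℝ)⁻¹ := by
      have h1' : ((St (w + 1) Y).ncard : ℝ) ≤
          ∑ j ∈ Finset.Icc 1 ⌊Y⌋₊, ((St w (Y / j)).ncard : ℝ) := by exact_mod_cast h1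
      refine h1'.trans ?_
      refine Finset.sum_le_sum fun j h => ?_
      obtain ⟨h3, h4⟩ := hj j h
      refine (ih _ h4).2.trans ?_
      have h5 : Real.log (Y / j) ≤ Real.log Y :=
        Real.log_le_log (by linarith) (div_le_self (by linarith) h3)
      have h6 : 0 ≤ Real.log (Y / j) := Real.log_nonneg h4
      have h7 : (1 + Real.log (Y / j)) ^ w ≤ (1 + Real.log Y) ^ w :=
        pow_le_pow_left₀ (by linarith) (by linarith) w
      calc Y / j * (1 + Real.log (Y / j)) ^ w ≤ Y / j * (1 + Real.log Y) ^ w :=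
            mul_le_mul_of_nonneg_left h7 (by linarith)
        _ = Y * (1 + Real.log Y) ^ w * (j : ℝ)⁻¹ := by ring
    refine h2.trans ?_
    rw [← Finset.mul_sum]
    have h3 : ∑ j ∈ Finset.Icc 1 ⌊Y⌋₊, (j : ℝ)⁻¹ ≤ 1 + Real.log Y := by
      have h5 := harmonic_floor_le_one_add_log Y hY
      rw [harmonic_eq_sum_Icc] at h5
      push_cast at h5
      exact h5
    calc Y * (1 + Real.log Y) ^ w * ∑ j ∈ Finset.Icc 1 ⌊Y⌋₊, (j : ℝ)⁻¹
        ≤ Y * (1 + Real.log Y) ^ w * (1 + Real.log Y) :=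
          mul_le_mul_of_nonneg_left h3 (by positivity)
      _ = Y * (1 + Real.log Y) ^ (w + 1) := by ring

end Pool.Agent.H14.AG
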